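import Pool.Agent.Helper43.DB.Goals

/-!
# MP_9b2a83_an, project DB, packet TRANS
-/

set_option autoImplicit false

namespace Pool.Agent.Helper83.DB.TRANS

open Pool.Agent.Helper39.Net Pool.Agent.Helper43.DB

/-- The rank of `x` in `Z` for the function `f`. -/
noncomputable def rkf {E : Type} (Z : Finset E) (f : E → ℝ) (x : E) : ℕ :=
  (Z.filter fun z => f z < f x).card

theorem rkf_lt {E : Type} (Z : Finset E) (f : E → ℝ) {x : E} (hx : x ∈ Z) :
    rkf Z f x < Z.card := by
  apply Finset.card_lt_card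
  rw [Finset.ssubset_iff_of_subset (Finset.filter_subset _ _)]
  exact ⟨x, hx, by simp⟩

theorem rkf_mono {E : Type} (Z : Finset E) (f : E → ℝ) {x y : E} (h : f x ≤ f y) :
    rkf Z f x ≤ rkf Z f y := by
  apply Finset.card_le_card
  intro z hz
  rw [Finset.mem_filter] at hz ⊢
  exact ⟨hz.1, hz.2.trans_le h⟩

theorem le_of_rkf {E : Type} (Z : Finset E) (f : E → ℝ) {x y : E} (hy : y ∈ Z)
    (h : rkf Z f x ≤ rkf Z f y) : f x ≤ f y := by
  by_contra hc
  push Not at hc
  have : rkf Z f y < rkf Z f x := by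
    apply Finset.card_lt_card
    have hsub : (Z.filter fun z => f z < f y) ⊆ Z.filter fun z => f z < f x := by
      intro z hz
      rw [Finset.mem_filter] at hz ⊢
      exact ⟨hz.1, hz.2.trans hc⟩
    rw [Finset.ssubset_iff_of_subset hsub]
    exact ⟨y, by simp [hy, hc], by simp⟩
  omega

theorem exists_gam {E : Type} (Z : Finset E) (f : E → ℝ) : ∃ γ : ℤ → ℝ, Monotone γ ∧
    ∀ x ∈ Z, γ (2 * (rkf Z f x : ℤ)) = f x ∧ γ (2 * (rkf Z f x : ℤ) + 1) = f x := by
  classical
  rcases Z.eq_empty_or_nonempty with rfl | hne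
  · exact ⟨fun _ => 0, fun _ _ _ => le_rfl, by simp⟩
  · set m0 : ℝ := Z.inf' hne f with hm0
    have hm : ∀ z ∈ Z, m0 ≤ f z := fun z hz => Finset.inf'_le _ hz
    refine ⟨fun n => Z.sup' hne fun z => if 2 * (rkf Z f z : ℤ) ≤ n then f z else m0, ?_, ?_⟩
    · intro a b hab
      refine Finset.sup'_le _ _ fun z hz => ?_
      refine le_trans ?_ (Finset.le_sup' (f := fun z => if 2 * (rkf Z f z : ℤ) ≤ b then f z
        else m0) hz)
      by_cases h1 : 2 * (rkf Z f z : ℤ) ≤ a
      · have h2 : 2 * (rkf Z f z : ℤ) ≤ b := h1.trans hab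
        simp [h1, h2]
      · simp only [if_neg h1]
        split_ifs
        · exact hm z hz
        · exact le_rfl
    · intro x hx
      have key : ∀ n : ℤ, 2 * (rkf Z f x : ℤ) ≤ n → n ≤ 2 * (rkf Z f x : ℤ) + 1 →
          (Z.sup' hne fun z => if 2 * (rkf Z f z : ℤ) ≤ n then f z else m0) = f x := by
        intro n h1 h2
        apply le_antisymm
        · refine Finset.sup'_le _ _ fun z hz => ?_
          split_ifs with h
          · exact le_of_rkf Z f hx (by omega)
          · exact hm x hx
        · refine le_trans (le_of_eq ?_) (Finset.le_sup' (f := fun z =>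
            if 2 * (rkf Z f z : ℤ) ≤ n then f z else m0) hx)
          simp [h1]
      exact ⟨key _ le_rfl (by omega), key _ (by omega) le_rfl⟩

/-- The coordinates of a point. -/
def co {r : ℕ} (p : PP r) : Fin (r + 3) → ℤ := fun i => Fin.addCases p.2 p.1 i

/-- The point with given coordinates. -/
def code {r : ℕ} (v : Fin (r + 3) → ℤ) : PP r :=
  (fun i => v (Fin.natAdd r i), fun j => v (Fin.castAdd 3 j))

theorem co_code {r : ℕ} (v : Fin (r + 3) → ℤ) : co (code v) = v := by
  funext i
  unfold co code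
  refine Fin.addCases (fun j => ?_) (fun j => ?_) i
  · simp
  · simp

theorem co_mono {r : ℕ} {p p' : PP r} (h : p ≤ p') : co p ≤ co p' := by
  intro i
  unfold co
  refine Fin.addCases (fun j => ?_) (fun j => ?_) i
  · simpa using h.2 j
  · simpa using h.1 j

/-- The map to real points. -/
noncomputable def G {r : ℕ} (s : Fin (r + 3) → Bool) (γ : Fin (r + 3) → ℤ → ℝ) (p : PP r) :
    Fin (r + 3) → ℝ := fun i => sg (s i) * γ i (co p i)

theorem dG {r : ℕ} (s : Fin (r + 3) → Bool) (γ : Fin (r + 3) → ℤ → ℝ)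
    (hγ : ∀ i, Monotone (γ i)) {p p' : PP r} (h : p ≤ p') :
    dOne (G s γ p) (G s γ p') = ∑ i, (γ i (co p' i) - γ i (co p i)) := by
  unfold dOne G
  refine Finset.sum_congr rfl fun i _ => ?_
  rw [← mul_sub, abs_mul, abs_sg, one_mul, abs_sub_comm, abs_of_nonneg]
  exact sub_nonneg.2 (hγ i (co_mono h i))

theorem chain_reach {r : ℕ} (s : Fin (r + 3) → Bool) (γ : Fin (r + 3) → ℤ → ℝ)
    (hγ : ∀ i, Monotone (γ i)) (S : Set (PP r × PP r))
    (S' : Set ((Fin (r + 3) → ℝ) × (Fin (r + 3) → ℝ)))
    (hS : ∀ p ∈ S, (G s γ p.1, G s γ p.2) ∈ S') {a b : PP r} (h : Chain S a b) :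
    a ≤ b ∧ Reach dOne S' (G s γ a) (G s γ b) (dOne (G s γ a) (G s γ b)) := by
  induction h with
  | refl => exact ⟨le_rfl, Reach.refl (dOne_nonneg _ _)⟩
  | @tail b c _ h2 ih =>
    obtain ⟨h3, h4⟩ := ih
    refine ⟨h3.trans h2.2, Reach.step h4 (Or.inl (hS _ h2.1)) ?_⟩
    rw [dG s γ hγ h3, dG s γ hγ h2.2, dG s γ hγ (h3.trans h2.2), ← Finset.sum_add_distrib]
    exact le_of_eq (Finset.sum_congr rfl fun i _ => by ring)

theorem t : G_TRANS := by
  classical
  intro r L T hN Z hZ
  -- ranks
  set F : (Fin (r + 3) → Bool) → Fin (r + 3) → (Fin (r + 3) → ℝ) → ℝ :=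
    fun s i x => sg (s i) * x i with hF
  choose γ hγm hγ using fun (s : Fin (r + 3) → Bool) (i : Fin (r + 3)) => exists_gam Z (F s i)
  set lo : (Fin (r + 3) → Bool) → (Fin (r + 3) → ℝ) → PP r :=
    fun s x => code fun i => 2 * (rkf Z (F s i) x : ℤ) with hlo
  set hi : (Fin (r + 3) → Bool) → (Fin (r + 3) → ℝ) → PP r :=
    fun s x => code fun i => 2 * (rkf Z (F s i) x : ℤ) + 1 with hhi
  have hlt : ∀ s i, ∀ x ∈ Z, (rkf Z (F s i) x : ℤ) < 2 ^ L := by
    intro s i x hx
    have := (rkf_lt Z (F s i) hx).trans_le hZ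
    exact_mod_cast this
  have hP : ∀ s, ∀ x ∈ Z.image (lo s) ∪ Z.image (hi s),
      (∀ i, 0 ≤ x.1 i ∧ x.1 i < 2 ^ (L + 1)) ∧ ∀ j, 0 ≤ x.2 j ∧ x.2 j < 2 ^ (L + 1) := by
    intro s x hx
    rw [Finset.mem_union, Finset.mem_image, Finset.mem_image] at hx
    have hp : (2 : ℤ) ^ (L + 1) = 2 * 2 ^ L := by ring
    rcases hx with ⟨z, hz, rfl⟩ | ⟨z, hz, rfl⟩
    · constructor
      · intro i
        have := hlt s (Fin.natAdd r i) z hz
        simp only [hlo, code]
        omega
      · intro i
        have := hlt s (Fin.castAdd 3 i) z hz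
        simp only [hlo, code]
        omega
    · constructor
      · intro i
        have := hlt s (Fin.natAdd r i) z hz
        simp only [hhi, code]
        omega
      · intro i
        have := hlt s (Fin.castAdd 3 i) z hz
        simp only [hhi, code]
        omega
  choose S hSc hS using fun s => hN (Z.image (lo s)) (Z.image (hi s)) (hP s)
  refine ⟨Finset.univ.biUnion fun s => (S s).image fun p => (G s (γ s) p.1, G s (γ s) p.2),
    ?_, ?_⟩
  · calc (Finset.univ.biUnion fun s => (S s).image fun p =>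
          (G s (γ s) p.1, G s (γ s) p.2)).card
        ≤ ∑ s : Fin (r + 3) → Bool, ((S s).image fun p =>
          (G s (γ s) p.1, G s (γ s) p.2)).card := Finset.card_biUnion_le
      _ ≤ ∑ _s : Fin (r + 3) → Bool, (Z.card + Z.card) * T := by
          refine Finset.sum_le_sum fun s _ => ?_
          refine Finset.card_image_le.trans ((hSc s).trans ?_)
          exact Nat.mul_le_mul_right _ (Nat.add_le_add Finset.card_image_le
            Finset.card_image_le)
      _ = Z.card * (2 ^ (r + 4) * T) := by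
          rw [Finset.sum_const, Finset.card_univ, Fintype.card_fun, Fintype.card_bool,
            Fintype.card_fin, smul_eq_mul]
          ring
  · intro x hx y hy
    set s : Fin (r + 3) → Bool := fun i => decide (x i ≤ y i) with hs
    have hle : ∀ i, F s i x ≤ F s i y := by
      intro i
      simp only [hF, hs, sg]
      by_cases h : x i ≤ y i
      · simp [h]
      · simp only [h, decide_false, Bool.false_eq_true, if_false]
        linarith
    have hrk : ∀ i, rkf Z (F s i) x ≤ rkf Z (F s i) y := fun i => rkf_mono Z _ (hle i)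
    have hch : Chain (S s : Set (PP r × PP r)) (lo s x) (hi s y) := by
      refine hS s _ (Finset.mem_image_of_mem _ hx) _ (Finset.mem_image_of_mem _ hy) ?_ ?_
      · intro i
        have := hrk (Fin.natAdd r i)
        simp only [hlo, hhi, code]
        omega
      · intro i
        have := hrk (Fin.castAdd 3 i)
        simp only [hlo, hhi, code]
        omega
    have hG1 : G s (γ s) (lo s x) = x := by
      funext i
      unfold G
      rw [hlo]
      simp only [co_code]
      rw [(hγ s i x hx).1, hF]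
      simp only
      rw [← mul_assoc, sg_mul_self, one_mul]
    have hG2 : G s (γ s) (hi s y) = y := by
      funext i
      unfold G
      rw [hhi]
      simp only [co_code]
      rw [(hγ s i y hy).2, hF]
      simp only
      rw [← mul_assoc, sg_mul_self, one_mul]
    have h := (chain_reach s (γ s) (hγm s) (S s : Set (PP r × PP r))
      ((Finset.univ.biUnion fun s => (S s).image fun p =>
        (G s (γ s) p.1, G s (γ s) p.2) : Finset _) : Set _) ?_ hch).2
    · rwa [hG1, hG2] at h
    · intro p hp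
      rw [Finset.mem_coe, Finset.mem_biUnion]
      exact ⟨s, Finset.mem_univ _, Finset.mem_image.2 ⟨p, hp, rfl⟩⟩

end Pool.Agent.Helper83.DB.TRANS
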